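import Pool.Agent.Helper98.TW.Basic

/-!
Sheet TW (MP_7a8f48_an), row SM0: the start of the induction.
-/

set_option linter.unusedSectionVars false

open MeasureTheory Filter Topology Finset
open scoped ComplexConjugate

namespace Pool.Agent.Helper34.TWR

open Pool.Agent.Helper98.TW

section sm0

variable {Ω : Type} [m0 : MeasurableSpace Ω] {μ : Measure Ω} [IsProbabilityMeasure μ]
  {R R' : Ω → Ω} {C : SA Ω} {h : Ω → ℂ} {E : Submodule ℂ (Lp ℂ 2 μ)} {A B : Set Ω}

/-- the indicator function -/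
noncomputable def ind (B : Set Ω) (x : Ω) : ℂ := B.indicator (fun _ => (1 : ℂ)) x

theorem ind_mem {x : Ω} (hx : x ∈ B) : ind B x = 1 := Set.indicator_of_mem hx _

theorem ind_notMem {x : Ω} (hx : x ∉ B) : ind B x = 0 := Set.indicator_of_notMem hx _

theorem norm_ind_le (x : Ω) : ‖ind B x‖ ≤ 1 := by
  by_cases hx : x ∈ B
  · rw [ind_mem hx, norm_one]
  · rw [ind_notMem hx, norm_zero]
    exact zero_le_one

theorem measurable_ind (hB : MeasurableSet B) : Measurable (ind B) := measurable_const.indicator hB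

theorem memLp_ind (hh : UF μ h) (hB : MeasurableSet B) : MemLp (fun x => ind B x * h x) 2 μ := by
  refine MemLp.of_bound ((measurable_ind hB).mul hh.1).aestronglyMeasurable 1 ?_
  filter_upwards [hh.2] with x hx
  rw [norm_mul, hx, mul_one]
  exact norm_ind_le x

/-- `B` is in `C` and the part of `h` on `B` is in `E` -/
def InE (μ : Measure Ω) (C : SA Ω) (h : Ω → ℂ) (E : Submodule ℂ (Lp ℂ 2 μ)) (B : Set Ω) : Prop :=
  MeasurableSet B ∧ AM μ C (ind B) ∧
    ∀ G : Lp ℂ 2 μ, (∀ᵐ x ∂μ, G x = ind B x * h x) → G ∈ E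

theorem inE_pre (hR : Sys μ R R') (hC : IA μ C R R') (hh : UF μ h) (hi : Inc μ C R h)
    (hE : CM μ C R (fun _ => 1) E) (hB : InE μ C h E B) : InE μ C h E (R ⁻¹' B) := by
  obtain ⟨hB1, hB2, hB3⟩ := hB
  have hmp := hR.mp
  have hG : ∀ᵐ x ∂μ, ((memLp_ind hh hB1).toLp _) x = ind B x * h x :=
    (memLp_ind hh hB1).coeFn_toLp
  set G : Lp ℂ 2 μ := (memLp_ind hh hB1).toLp _ with hGdef
  have hGE : G ∈ E := hB3 G hG
  set G' : Lp ℂ 2 μ := Lp.compMeasurePreserving R hmp G with hG'
  have hG'1 : ∀ᵐ x ∂μ, G' x = G (R x) := Lp.coeFn_compMeasurePreserving G hmp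
  have hG'E : G' ∈ E := by
    refine hE.comp G hGE G' ?_
    filter_upwards [hG'1] with x hx
    rw [hx]
    rfl
  refine ⟨hmp.measurable hB1, (hC.2 _ hB2).1, fun G'' hG'' => ?_⟩
  refine hE.mul G' hG'E (fun x => conj (h (R x) * conj (h x))) (am_conj hi) ⟨1, ?_⟩ G'' ?_
  · filter_upwards [hh.2, ae_comp hmp hh.2] with x h1 h2
    rw [RCLike.norm_conj, norm_mul, RCLike.norm_conj, h1, h2, one_mul]
  · filter_upwards [hG'', hG'1, ae_comp hmp hG, ae_comp hmp hh.mul_conj] with x h1 h2 h3 h4
    have h5 : ind (R ⁻¹' B) x = ind B (R x) := rfl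
    rw [h1, h2, h3, smul_eq_mul, map_mul, Complex.conj_conj, h5]
    linear_combination (-(ind B (R x)) * h x) * h4

theorem inE_union (hh : UF μ h) (hE : C0 μ C E) (hA : InE μ C h E A) (hB : InE μ C h E B) :
    InE μ C h E (A ∪ B) := by
  classical
  obtain ⟨hA1, hA2, hA3⟩ := hA
  obtain ⟨hB1, hB2, hB3⟩ := hB
  have hid : ∀ x, ind (A ∪ B) x = ind A x + (1 - ind A x) * ind B x := by
    intro x
    by_cases hx : x ∈ A
    · rw [ind_mem (Set.mem_union_left _ hx), ind_mem hx]
      ring
    · by_cases hy : x ∈ B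
      · rw [ind_mem (Set.mem_union_right _ hy), ind_notMem hx, ind_mem hy]
        ring
      · rw [ind_notMem (fun h => h.elim hx hy), ind_notMem hx, ind_notMem hy]
        ring
  have h1A : AM μ C (fun x => 1 - ind A x) := am_sub (am_const 1) hA2
  refine ⟨hA1.union hB1, ?_, fun G hG => ?_⟩
  · exact am_congr (am_add hA2 (am_mul h1A hB2)) (Eventually.of_forall fun x => (hid x).symm)
  · have hGA : ∀ᵐ x ∂μ, ((memLp_ind hh hA1).toLp _) x = ind A x * h x :=
      (memLp_ind hh hA1).coeFn_toLp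
    have hGB : ∀ᵐ x ∂μ, ((memLp_ind hh hB1).toLp _) x = ind B x * h x :=
      (memLp_ind hh hB1).coeFn_toLp
    set GA : Lp ℂ 2 μ := (memLp_ind hh hA1).toLp _ with hGAdef
    set GB : Lp ℂ 2 μ := (memLp_ind hh hB1).toLp _ with hGBdef
    have h1 : GA ∈ E := hA3 _ hGA
    have h2 : G - GA ∈ E := by
      refine hE.mul GB (hB3 _ hGB) (fun x => 1 - ind A x) h1A ⟨2, Eventually.of_forall fun x => ?_⟩
        _ ?_
      · calc ‖1 - ind A x‖ ≤ ‖(1 : ℂ)‖ + ‖ind A x‖ := norm_sub_le _ _
          _ ≤ 1 + 1 := by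
            rw [norm_one]
            exact add_le_add_right (norm_ind_le x) 1
          _ = 2 := by norm_num
      · filter_upwards [Lp.coeFn_sub G GA, hG, hGA, hGB] with x h3 h4 h5 h6
        rw [h3, Pi.sub_apply, h4, h5, h6, smul_eq_mul, hid x]
        ring
    have h3 : G = (G - GA) + GA := by abel
    rw [h3]
    exact E.add_mem h2 h1

theorem inE_iUnion (hh : UF μ h) (hE : C0 μ C E) {D : ℕ → Set Ω} (hD : ∀ n, InE μ C h E (D n))
    (hmono : Monotone D) : InE μ C h E (⋃ n, D n) := by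
  classical
  have hlim : ∀ x, Tendsto (fun n => ind (D n) x) atTop (𝓝 (ind (⋃ n, D n) x)) := by
    intro x
    by_cases hx : x ∈ ⋃ n, D n
    · obtain ⟨n, hn⟩ := Set.mem_iUnion.1 hx
      refine tendsto_const_nhds.congr' ?_
      filter_upwards [eventually_ge_atTop n] with k hk
      rw [ind_mem hx, ind_mem (hmono hk hn)]
    · refine tendsto_const_nhds.congr fun n => ?_
      rw [ind_notMem hx, ind_notMem fun h => hx (Set.mem_iUnion.2 ⟨n, h⟩)]
  refine ⟨MeasurableSet.iUnion fun n => (hD n).1, ?_, fun G hG => ?_⟩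
  · exact am_of_tendsto (fun n => (hD n).2.1) (Eventually.of_forall hlim)
  · have hGn : ∀ n, ∀ᵐ x ∂μ, ((memLp_ind hh (hD n).1).toLp _) x = ind (D n) x * h x :=
      fun n => (memLp_ind hh (hD n).1).coeFn_toLp
    set Gn : ℕ → Lp ℂ 2 μ := fun n => (memLp_ind hh (hD n).1).toLp _ with hGndef
    have hmem : ∀ n, Gn n ∈ E := fun n => (hD n).2.2 _ (hGn n)
    have hnorm : ∀ n, ‖Gn n - G‖ ^ 2 = ∫ x, ‖ind (D n) x * h x - ind (⋃ n, D n) x * h x‖ ^ 2 ∂μ := by
      intro n
      have h1 : ‖Gn n - G‖ ^ 2 = RCLike.re (inner ℂ (Gn n - G) (Gn n - G)) :=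
        (inner_self_eq_norm_sq (𝕜 := ℂ) _).symm
      rw [h1, L2.inner_def, ← integral_re]
      · refine integral_congr_ae ?_
        filter_upwards [Lp.coeFn_sub (Gn n) G, hG, hGn n] with x h2 h3 h4
        rw [inner_self_eq_norm_sq (𝕜 := ℂ), h2, Pi.sub_apply, h3]
        rw [show (Gn n) x = ind (D n) x * h x from h4]
      · exact L2.integrable_inner _ _
    have htend : Tendsto (fun n => ‖Gn n - G‖ ^ 2) atTop (𝓝 0) := by
      simp only [hnorm]
      have h0 : ∫ _x, (0 : ℝ) ∂μ = 0 := integral_zero _ _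
      rw [← h0]
      refine tendsto_integral_of_dominated_convergence (fun _ => (4 : ℝ)) (fun n => ?_)
        (integrable_const _) (fun n => ?_) ?_
      · have hm1 : Measurable (fun x => ind (D n) x * h x - ind (⋃ n, D n) x * h x) :=
          ((measurable_ind (hD n).1).mul hh.1).sub
            ((measurable_ind (MeasurableSet.iUnion fun n => (hD n).1)).mul hh.1)
        exact (hm1.norm.pow_const 2).aestronglyMeasurable
      · filter_upwards [hh.2] with x hx
        rw [Real.norm_of_nonneg (by positivity)]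
        have h1 : ‖ind (D n) x * h x - ind (⋃ n, D n) x * h x‖ ≤ 2 := by
          calc _ ≤ ‖ind (D n) x * h x‖ + ‖ind (⋃ n, D n) x * h x‖ := norm_sub_le _ _
            _ ≤ 1 + 1 := by
              rw [norm_mul, norm_mul, hx, mul_one, mul_one]
              exact add_le_add (norm_ind_le x) (norm_ind_le x)
            _ = 2 := by norm_num
        calc _ ≤ (2 : ℝ) ^ 2 := pow_le_pow_left₀ (norm_nonneg _) h1 2
          _ = 4 := by norm_num
      · refine Eventually.of_forall fun x => ?_
        have h1 : Tendsto (fun n => ind (D n) x * h x - ind (⋃ n, D n) x * h x) atTop (𝓝 0) := by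
          have := ((hlim x).mul_const (h x)).sub_const (ind (⋃ n, D n) x * h x)
          rwa [sub_self] at this
        have h2 := (h1.norm).pow 2
        rw [norm_zero] at h2
        simpa using h2
    have htend2 : Tendsto Gn atTop (𝓝 G) := by
      rw [tendsto_iff_norm_sub_tendsto_zero]
      have h1 := (Real.continuous_sqrt.tendsto 0).comp htend
      rw [Real.sqrt_zero] at h1
      refine h1.congr fun n => ?_
      simp only [Function.comp_apply]
      exact Real.sqrt_sq (norm_nonneg _)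
    exact hE.closed.mem_of_tendsto htend2 (Eventually.of_forall hmem)

end sm0

theorem st_SM0 : ST_SM0 := by
  classical
  intro Ω _ μ _ R R' C n hR herg hC h hh hi E hE hE0 hH _
  obtain ⟨G, hGE, hG0⟩ := Submodule.exists_mem_ne_zero_of_ne_bot hE0
  obtain ⟨g, hg, hGg⟩ := am_iff.1 (hH G hGE)
  have hgm : Measurable g := hg.mono hC.1 le_rfl
  -- a set on which `g` is bounded below
  have hex : ∃ k : ℕ, μ {x | ((k : ℝ) + 1)⁻¹ ≤ ‖g x‖} ≠ 0 := by
    by_contra hcon
    push Not at hcon
    apply hG0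
    have h1 : ∀ᵐ x ∂μ, ∀ k : ℕ, ¬ ((k : ℝ) + 1)⁻¹ ≤ ‖g x‖ := by
      rw [ae_all_iff]
      intro k
      rw [ae_iff]
      simp only [not_not]
      exact hcon k
    refine (Lp.eq_zero_iff_ae_eq_zero).2 ?_
    filter_upwards [h1, hGg, hh.2] with x h2 h3 h4
    have h5 : g x = 0 := by
      by_contra h6
      have h7 : 0 < ‖g x‖ := norm_pos_iff.2 h6
      obtain ⟨k, hk⟩ := exists_nat_one_div_lt h7
      exact h2 k (by rw [one_div] at hk; exact hk.le)
    have h6 : conj (h x) ≠ 0 := by
      intro h7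
      have : ‖conj (h x)‖ = 1 := by rw [RCLike.norm_conj, h4]
      rw [h7, norm_zero] at this
      norm_num at this
    have h7 : conj (h x) * G x = 0 := h3.trans h5
    rw [Pi.zero_apply]
    exact (mul_eq_zero.1 h7).resolve_left h6
  obtain ⟨k, hk⟩ := hex
  set B : Set Ω := {x | ((k : ℝ) + 1)⁻¹ ≤ ‖g x‖} with hBdef
  have hk1 : (0 : ℝ) < (k : ℝ) + 1 := by positivity
  have hBC : MeasurableSet[C] B :=
    hg (measurableSet_le measurable_const measurable_norm :
      MeasurableSet {z : ℂ | ((k : ℝ) + 1)⁻¹ ≤ ‖z‖})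
  have hBm : MeasurableSet B := hC.1 _ hBC
  have hBE : InE μ C h E B := by
    have hindC : Measurable[C] (ind B) := (@measurable_const _ _ _ C (1 : ℂ)).indicator hBC
    refine ⟨hBm, am_of hindC, fun G' hG' => ?_⟩
    refine hE.mul G hGE (fun x => ind B x * (g x)⁻¹) (am_of (hindC.mul hg.inv)) ⟨(k : ℝ) + 1, ?_⟩
      G' ?_
    · refine Eventually.of_forall fun x => ?_
      by_cases hx : x ∈ B
      · rw [ind_mem hx, one_mul, norm_inv]
        have h1 : ((k : ℝ) + 1)⁻¹ ≤ ‖g x‖ := hx
        exact inv_le_of_inv_le₀ hk1 h1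
      · rw [ind_notMem hx, zero_mul, norm_zero]
        exact hk1.le
    · filter_upwards [hG', hGg, hh.mul_conj] with x h1 h2 h3
      rw [h1, smul_eq_mul]
      by_cases hx : x ∈ B
      · have h4 : g x ≠ 0 := by
          intro h5
          have h6 : ((k : ℝ) + 1)⁻¹ ≤ ‖g x‖ := hx
          rw [h5, norm_zero] at h6
          exact absurd h6 (not_le.2 (inv_pos.2 hk1))
        have h5 : G x = h x * g x := by
          rw [← h2]
          linear_combination (-(G x)) * h3
        rw [ind_mem hx, h5]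
        field_simp
      · rw [ind_notMem hx]
        ring
  -- the preimages
  have hpre : ∀ j : ℕ, InE μ C h E (R^[j] ⁻¹' B) := by
    intro j
    induction j with
    | zero => exact hBE
    | succ j ih =>
      have h1 := inE_pre hR hC hh hi hE ih
      rw [← Set.preimage_comp, ← Function.iterate_succ] at h1
      exact h1
  have hfin : ∀ j : ℕ, InE μ C h E (⋃ i ∈ Finset.range (j + 1), R^[i] ⁻¹' B) := by
    intro j
    induction j with
    | zero =>
      have h1 := hpre 0
      simpa using h1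
    | succ j ih =>
      rw [Finset.range_add_one, Finset.set_biUnion_insert, Set.union_comm]
      exact inE_union hh hE.toC0 ih (hpre (j + 1))
  have hall := inE_iUnion hh hE.toC0 hfin (by
    intro a b hab
    exact Set.biUnion_subset_biUnion_left fun i hi => by
      simp only [Finset.coe_range, Set.mem_Iio, Finset.mem_coe, Finset.mem_range] at hi ⊢
      omega)
  set D : Set Ω := ⋃ j, ⋃ i ∈ Finset.range (j + 1), R^[i] ⁻¹' B with hDdef
  have hDmem : ∀ x, x ∈ D ↔ ∃ i, R^[i] x ∈ B := by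
    intro x
    simp only [hDdef, Set.mem_iUnion, Finset.mem_range, Set.mem_preimage, exists_prop]
    constructor
    · rintro ⟨j, i, _, hx⟩
      exact ⟨i, hx⟩
    · rintro ⟨i, hx⟩
      exact ⟨i, i, by omega, hx⟩
  have hDinv : R ⁻¹' D ⊆ D := by
    intro x hx
    obtain ⟨i, hi'⟩ := (hDmem _).1 hx
    exact (hDmem x).2 ⟨i + 1, by rw [Function.iterate_succ_apply]; exact hi'⟩
  have hDae : ∀ᵐ x ∂μ, x ∈ D := by
    have h1 : (R ⁻¹' D : Set Ω) =ᵐ[μ] D := by
      refine ae_eq_of_subset_of_measure_ge hDinv ?_ ?_ (measure_ne_top _ _)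
      · rw [hR.mp.measure_preimage hall.1.nullMeasurableSet]
      · exact (hR.mp.measurable hall.1).nullMeasurableSet
    rcases herg.quasiErgodic.ae_empty_or_univ₀ hall.1.nullMeasurableSet h1 with h2 | h2
    · exfalso
      apply hk
      have h3 : μ D = 0 := by rw [measure_congr h2, measure_empty]
      refine measure_mono_null ?_ h3
      intro x hx
      exact (hDmem x).2 ⟨0, hx⟩
    · filter_upwards [eventuallyEq_set.1 h2] with x hx
      exact hx.2 (Set.mem_univ x)
  have hmem1 : MemLp h 2 μ :=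
    MemLp.of_bound hh.1.aestronglyMeasurable 1 (by
      filter_upwards [hh.2] with x hx
      exact hx.le)
  refine ⟨h, hh, hi, hmem1.toLp h, ?_, hmem1.coeFn_toLp⟩
  refine hall.2.2 _ ?_
  filter_upwards [hmem1.coeFn_toLp, hDae] with x h1 h2
  rw [h1, ind_mem h2, one_mul]

end Pool.Agent.Helper34.TWR
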