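import Pool.Agent.Helper98.TW.Basic

/-!
Sheet TW (MP_7a8f48_an), row SRK: modules of small rank over the hull.
-/

set_option linter.unusedSectionVars false

open MeasureTheory Filter Topology Finset
open scoped ComplexConjugate

namespace Pool.Agent.Helper34.TWR

open Pool.Agent.Helper98.TW
open Pool.Agent.Helper16.AZ (T mm)
open UnitAddTorus (mFourier)

section gen

variable {Ω : Type} [m0 : MeasurableSpace Ω] {μ : Measure Ω} {R R' : Ω → Ω} {C 𝒜 ℬ : SA Ω}

/-- `SM` for smaller sigma algebras -/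
theorem sm_lq {n : ℕ} (h : LQ μ 𝒜 ℬ) (hs : SM μ C ℬ R n) : SM μ C 𝒜 R n := by
  intro g hg hgi E hE hE0 hH hr
  exact hs g hg (hgi.lq h) E hE hE0 (fun G hG => h _ (hH G hG)) hr

/-- increments for iterates -/
theorem inc_iterate (hA : IA μ 𝒜 R R') {ψ : Ω → ℂ} (hR : MeasurePreserving R μ μ) (hψ : UF μ ψ)
    (h : Inc μ 𝒜 R ψ) (m : ℕ) : Inc μ 𝒜 R^[m] ψ := by
  induction m with
  | zero =>
    unfold Inc
    refine am_congr (am_const (μ := μ) (𝒜 := 𝒜) 1) ?_
    filter_upwards [hψ.mul_conj] with x hx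
    rw [Function.iterate_zero, id, hx]
  | succ m ih =>
    unfold Inc at ih ⊢
    refine am_congr (am_mul ((hA.iterate m).2 _ h).1 ih) ?_
    filter_upwards [ae_comp (hR.iterate m) hψ.mul_conj] with x hx
    rw [Function.iterate_succ_apply']
    linear_combination (ψ (R (R^[m] x)) * conj (ψ x)) * hx

end gen

section tor

variable {N : ℕ} {lev : Fin N → ℕ} {f f' : Fin N → T N → U}

theorem ex_ss (a : Fin N → ℤ) (x : T N) :
    ex a (SS f x) * conj (ex a x) = ex a (fun i => f i x) := by
  have h1 : SS f x = x + fun i => f i x := rfl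
  have h2 : ex a (x + fun i => f i x) = ex a x * ex a (fun i => f i x) := by
    unfold ex mFourier
    simp only [ContinuousMap.coe_mk, Pi.add_apply, fourier_apply, smul_add, AddCircle.toCircle_add,
      Circle.coe_mul, Finset.prod_mul_distrib]
  have h3 : ex a x * conj (ex a x) = 1 := by
    rw [Complex.mul_conj, Complex.normSq_eq_norm_sq]
    have h4 : ‖ex a x‖ = 1 := by
      unfold ex mFourier
      simp only [ContinuousMap.coe_mk, norm_prod, fourier_apply, Circle.norm_coe,
        Finset.prod_const_one]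
    rw [h4]
    simp
  rw [h1, h2]
  linear_combination ex a (fun i => f i x) * h3

/-- the increments of the characters of level `l` -/
theorem inc_ch (ht : Tow lev f) (l : ℕ) {φ : T N → ℂ} (hφ : φ ∈ CH lev l) :
    Inc (mm N) (AL lev l) (SS f) φ := by
  obtain ⟨a, ha, rfl⟩ := hφ
  unfold Inc
  have h1 : (fun x => ex a (SS f x) * conj (ex a x)) =
      fun x => ex a (fun i => f i (tr lev l x)) := by
    funext x
    rw [ex_ss]
    unfold ex mFourier
    simp only [ContinuousMap.coe_mk]
    refine Finset.prod_congr rfl fun i _ => ?_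
    by_cases hai : a i = 0
    · rw [hai, fourier_zero, fourier_zero]
    · have hl : lev i = l := ha i hai
      rw [← hl, ht.dep]
  rw [h1]
  apply am_of
  have h2 : Measurable (fun y : T N => ex a (fun i => f i y)) := by
    have h3 : Measurable (ex a) := (mFourier a).continuous.measurable
    exact h3.comp (measurable_pi_lambda _ fun i => ht.meas i)
  exact h2.comp (comap_measurable (tr lev l))

end tor

theorem st_SRK (h0 : ST_SM0) (hst : ST_SST) (als : ST_ALS) (ial : ST_IAL) (mps : ST_MPS)
    (iaj : ST_IAJ) : ST_SRK := by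
  intro N lev f f' p q κ C l n hti heg hp hq hhp hn hnq
  have hals := als N lev
  have hR1 : Sys (mm N) (SS f)^[1] (SS f')^[1] := mps N lev f f' hti 1
  have hR : Sys (mm N) (SS f)^[p] (SS f')^[p] := mps N lev f f' hti p
  have herg : Ergodic (SS f)^[p] (mm N) := (heg p hp).1
  have hC : IA (mm N) C (SS f)^[p] (SS f')^[p] := hhp.ia.iterate p
  have hprob : IsProbabilityMeasure (mm N) := by infer_instance
  have hA : ∀ j, IA (mm N) (AL lev j) (SS f)^[p] (SS f')^[p] := fun j => ial N lev f f' hti j p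
  have hA1 : ∀ j, IA (mm N) (AL lev j) (SS f) (SS f') := fun j => ial N lev f f' hti j 1
  have hJ : ∀ j, IA (mm N) (jo C (AL lev j)) (SS f)^[p] (SS f')^[p] := fun j =>
    (iaj (T N) (mm N) _ _ hR).1 C (AL lev j) hC (hA j)
  have hgrp : ∀ j, Grp (mm N) (CH lev j) := hals.2.2.2.2.2.1
  have hmain : ∀ j, j ≤ l → SM (mm N) C (jo C (AL lev j)) (SS f)^[p] (n ^ 2 ^ (l - j)) := by
    intro j
    induction j with
    | zero =>
      intro _
      refine sm_lq ?_ (h0 (T N) (mm N) _ _ C _ hR herg hC)
      rw [hals.1]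
      exact lq_jo lq_refl lq_bo
    | succ j ih =>
      intro hj
      have ih1 := ih (by omega)
      have hexp : n ^ 2 ^ (l - j) = (n ^ 2 ^ (l - (j + 1))) ^ 2 := by
        rw [← pow_mul, ← pow_succ]
        congr 2
        omega
      have hinc : ∀ φ ∈ CH lev j, Inc (mm N) (jo C (AL lev j)) (SS f)^[p] φ := by
        intro φ hφ
        exact (inc_iterate (hA1 j) hR1.mp ((hgrp j).uf φ hφ) (inc_ch hti.t j hφ) p).lq
          lq_jo_right
      have hAl : LQ (mm N) (AL lev j) (AL lev l) := hals.2.2.2.1 j l (by omega)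
      have hCHl : LQ (mm N) (sg (CH lev j)) (AL lev l) := by
        refine lq_sg fun φ hφ => ?_
        obtain ⟨a, ha, rfl⟩ := hφ
        exact hals.2.2.2.2.2.2 j l a (by omega) ha
      have hlql : LQ (mm N) (jo (jo C (AL lev j)) (sg (CH lev j))) (AL lev l) :=
        lq_jo (lq_jo hhp.le hAl) hCHl
      have hsat : Sat (mm N) C (jo (jo C (AL lev j)) (sg (CH lev j))) (SS f)^[p]
          ((n ^ 2 ^ (l - (j + 1))) ^ 2) := by
        intro ψ hψ hψA hψi M hM1 hM2 hψM
        refine hhp.c ψ hψ (hlql _ hψA) hψi M hM1 ?_ hψM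
        have h1 : M < q := by
          refine lt_of_le_of_lt hM2 (lt_of_le_of_lt ?_ hnq)
          rw [← hexp]
          exact Nat.pow_le_pow_right hn (Nat.pow_le_pow_right (by norm_num) (by omega))
        exact (Nat.coprime_of_lt_prime (by omega) h1 hq).symm
      have h1 := hst (T N) (mm N) _ _ C (jo C (AL lev j)) (CH lev j) (n ^ 2 ^ (l - (j + 1))) hR
        herg hC (hJ j) lq_jo_left (hgrp j) hinc hsat (hexp ▸ ih1)
      refine sm_lq ?_ h1
      rw [hals.2.1 j]
      refine lq_jo (lq_trans lq_jo_left lq_jo_left) (lq_jo ?_ lq_jo_right)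
      exact lq_trans lq_jo_right lq_jo_left
  have hfin := hmain l le_rfl
  rw [Nat.sub_self, pow_zero, pow_one] at hfin
  exact sm_lq lq_jo_right hfin

end Pool.Agent.Helper34.TWR
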